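import Pool.Agent.Work.MP_fe875b_lc.NU.GenU

/-!
The k-server conjecture for all near-uniform metric spaces: every number `k` of servers, every (finite or infinite)
metric space whose nonzero distances are in `[a, (1 + 2 / (3 (k² + 5 k + 2))) a]`, every starting configuration.
-/

set_option autoImplicit false

namespace Pool.Agent.Results.MP_fe875b_lc.NearUniform

open Pool.Agent.KServer Pool.Agent.KServer.NU

theorem result :
    ∀ (k : ℕ), 0 < k → ∀ (M : Type) [MetricSpace M] (a : ℝ), 0 < a →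
      (∀ x y : M, x ≠ y →
        a ≤ dist x y ∧ dist x y ≤ (1 + 2 / (3 * ((k : ℝ) ^ 2 + 5 * k + 2))) * a) →
      ∀ c₀ : Fin k → M,
        ∃ C : List M → (Fin k → M),
          C [] = c₀ ∧
          (∀ (l : List M) (r : M), ∃ i : Fin k, C (l ++ [r]) i = r) ∧
          ∀ (σ : List M) (S : ℕ → Fin k → M),
            S 0 = c₀ →
            (∀ j : Fin σ.length, ∃ i : Fin k, S (j.val + 1) i = σ.get j) →
            (∑ j ∈ Finset.range σ.length, ∑ i : Fin k,
                dist (C (σ.take j) i) (C (σ.take (j + 1)) i))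
              ≤ (k : ℝ) * (∑ j ∈ Finset.range σ.length, ∑ i : Fin k,
                dist (S j i) (S (j + 1) i)) + 5 * (k : ℝ) ^ 2 * a := by
  intro k hk M _ a ha h c₀
  have hk0 : (0 : ℝ) ≤ (k : ℝ) := Nat.cast_nonneg _
  have hp : 0 < (k : ℝ) ^ 2 + 5 * k + 2 := by positivity
  obtain ⟨C, hC, hcomp⟩ := near_allU hk ha (ε := 2 / (3 * ((k : ℝ) ^ 2 + 5 * k + 2)))
    (by positivity) (by
      rw [div_mul_eq_mul_div, div_le_iff₀ (by positivity)]
      apply le_of_eq
      ring) h c₀
  exact ⟨C, hC.1, hC.2, fun σ S h1 h2 => hcomp σ S ⟨h1, h2⟩⟩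

end Pool.Agent.Results.MP_fe875b_lc.NearUniform
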