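import Pool.Agent.Work.MP_fe875b_lc.Final

/-!
The k-server conjecture: one universal space, no additive constant, attained ratio, and reduction to
finite connected graphs of maximum degree three and large girth with a bounded number of requests.
-/

set_option autoImplicit false

namespace Pool.Agent.Results.MP_fe875b_lc.SubcubicReduction

open Pool.Agent.KServer

theorem result :
    (∀ (k : ℕ) (c : ℝ) (g : ℕ), 0 < k → 0 ≤ c → List.TFAE [
      ∀ (M : Type) [MetricSpace M] (c₀ : Fin k → M), ∃ b : ℝ, Comp (fun x y => dist x y) c₀ c b,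
      ∀ (M : Type) [MetricSpace M] (c₀ : Fin k → M) (a : M),
        Comp (fun x y => dist x y) c₀ c ((c + 1) * ∑ i, dist (c₀ i) a),
      Comp supDist (fun _ : Fin k => 0) c 0,
      ∀ ε : ℝ, 0 < ε → ∃ b : ℝ, Comp supDist (fun _ : Fin k => 0) (c + ε) b,
      ∀ (V : Type) [Finite V] (G : SimpleGraph V), G.Connected → ∀ (v : V) (N : ℕ), StrictOn k c G v N,
      ∀ (V : Type) [Finite V] (G : SimpleGraph V), G.Connected → (∀ v, (G.neighborSet v).ncard ≤ 3) →
        (g : ℕ∞) ≤ G.egirth → ∀ (v : V) (N : ℕ), StrictOn k c G v N]) ∧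
    ((∀ (M : Type) [MetricSpace M] (k : ℕ), 0 < k → ∀ c₀ : Fin k → M,
      ∃ C : List M → (Fin k → M),
        C [] = c₀ ∧
        (∀ (l : List M) (r : M), ∃ i : Fin k, C (l ++ [r]) i = r) ∧
        ∃ α : ℝ, ∀ (σ : List M) (S : ℕ → Fin k → M),
          S 0 = c₀ →
          (∀ j : Fin σ.length, ∃ i : Fin k, S (j.val + 1) i = σ.get j) →
          (∑ j ∈ Finset.range σ.length, ∑ i : Fin k,
              dist (C (σ.take j) i) (C (σ.take (j + 1)) i))
            ≤ (k : ℝ) * (∑ j ∈ Finset.range σ.length, ∑ i : Fin k,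
              dist (S j i) (S (j + 1) i)) + α) ↔
      ∀ k : ℕ, 0 < k → Comp supDist (fun _ : Fin k => 0) (k : ℝ) 0) :=
  ⟨fun _ _ g hk hc => tfae_main hk hc g, conjecture_iff⟩

end Pool.Agent.Results.MP_fe875b_lc.SubcubicReduction
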