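import Pool.Agent.Work.MP_fe875b_lc.R4.WDefs
import Pool.Agent.Work.MP_fe875b_lc.R4.Wf4

/-!
Three servers, every metric space: every work function algorithm has competitive ratio 4.
-/

set_option autoImplicit false

namespace Pool.Agent.Results.MP_fe875b_lc.ThreeServersRatioFour

open Pool.Agent.KServer

private theorem offCost_eq' {M : Type} [MetricSpace M] (c₀ : Fin 3 → M) (σ : List M) (X : Fin 3 → M) :
    Three.offCost c₀ σ X = Pool.Agent.KServer.offCost dist c₀ σ X := by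
  unfold Three.offCost Pool.Agent.KServer.offCost
  congr 1
  ext c
  constructor
  · rintro ⟨S, h0, h1, ⟨π, h2⟩, h3⟩
    exact ⟨S, ⟨h0, h1⟩, ⟨π, funext h2⟩, h3⟩
  · rintro ⟨S, ⟨h0, h1⟩, ⟨π, h2⟩, h3⟩
    exact ⟨S, h0, h1, ⟨π, fun i => congrFun h2 i⟩, h3⟩

private theorem isWFA_iff {M : Type} [MetricSpace M] (c₀ : Fin 3 → M) (C : List M → Fin 3 → M) :
    Three.IsWFA c₀ C ↔ Pool.Agent.KServer.IsWFA dist c₀ C := by
  unfold Three.IsWFA Pool.Agent.KServer.IsWFA
  simp only [offCost_eq']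

theorem result :
    ∀ (M : Type) [MetricSpace M] (c₀ : Fin 3 → M),
      (∃ C : List M → (Fin 3 → M), Three.IsWFA c₀ C) ∧
      ∀ C : List M → (Fin 3 → M), Three.IsWFA c₀ C →
        C [] = c₀ ∧
        (∀ (l : List M) (r : M), ∃ i : Fin 3, C (l ++ [r]) i = r) ∧
        ∀ (p : M) (σ : List M) (S : ℕ → Fin 3 → M),
          S 0 = c₀ →
          (∀ j : Fin σ.length, ∃ i : Fin 3, S (j.val + 1) i = σ.get j) →
          (∑ j ∈ Finset.range σ.length, ∑ i : Fin 3,
              dist (C (σ.take j) i) (C (σ.take (j + 1)) i))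
            ≤ 4 * (∑ j ∈ Finset.range σ.length, ∑ i : Fin 3,
              dist (S j i) (S (j + 1) i)) + 9 * ∑ i : Fin 3, dist (c₀ i) p := by
  intro M _ c₀
  have hMet : Metr (dist : M → M → ℝ) :=
    { self := fun x => dist_self _
      nonneg := fun x y => dist_nonneg
      tri := fun x y z => dist_triangle _ _ _
      comm := fun x y => dist_comm _ _ }
  refine ⟨?_, fun C hC => ⟨hC.1, fun l r => (hC.2 l r).1, fun p σ S h0 hS => ?_⟩⟩
  · obtain ⟨C, hC⟩ := exists_isWFA (k := 3) (by norm_num) hMet c₀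
    exact ⟨C, (isWFA_iff c₀ C).2 hC⟩
  · exact R4.wfa_four M c₀ C ((isWFA_iff c₀ C).1 hC) p σ S ⟨h0, hS⟩

end Pool.Agent.Results.MP_fe875b_lc.ThreeServersRatioFour
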